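import Pool.Agent.TH232.CR.Fin

/-!
The boundary path of the O(n) model for `n = 0`, `x = x_c(0)`, between two opposite boundary points
of a domain which lies between a rectangle and a strip: with overwhelming probability the cut rows
of the path are sparse in every window of rows.
-/

set_option autoImplicit false

namespace Pool.Agent.Results.MP_4960b8_pr.FixedEndsCutRows

open scoped ENNReal

/-- Adjacency in the honeycomb lattice (brick-wall coordinates, as in the frozen statement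
S19575). -/
def Nbr (p q : ℤ × ℤ) : Prop :=
  (p.2 = q.2 ∧ (p.1 - q.1 = 1 ∨ q.1 - p.1 = 1)) ∨
    (p.1 = q.1 ∧ ((q.2 = p.2 + 1 ∧ Even (p.1 + p.2)) ∨ (p.2 = q.2 + 1 ∧ Even (q.1 + q.2))))

/-- The self-avoiding trajectories from `a` to `b` in `D`, as lists of vertices (the configurations
of the model for `n = 0`). -/
def Traj (D : Set (ℤ × ℤ)) (a b : ℤ × ℤ) : Set (List (ℤ × ℤ)) :=
  {l | l.head? = some a ∧ l.getLast? = some b ∧ l.Nodup ∧ l.IsChain Nbr ∧ ∀ p ∈ l, p ∈ D}

/-- The critical fugacity `x_c(0)`. -/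
noncomputable def xc : ℝ≥0∞ := ENNReal.ofReal (1 / Real.sqrt (2 + Real.sqrt 2))

/-- The critical partition function: the sum of `xc ^ (number of steps)` over the trajectories. -/
noncomputable def Z (D : Set (ℤ × ℤ)) (a b : ℤ × ℤ) : ℝ≥0∞ :=
  ∑' l : Traj D a b, xc ^ (l.1.length - 1)

/-- The probability that the trajectory from `a` to `b` in `D` has the property `P`, under the
critical measure. -/
noncomputable def Prob (D : Set (ℤ × ℤ)) (a b : ℤ × ℤ) (P : List (ℤ × ℤ) → Prop) : ℝ≥0∞ :=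
  (∑' l : {l // l ∈ Traj D a b ∧ P l}, xc ^ (l.1.length - 1)) / Z D a b

/-- The strip with the `2 L` levels `x - y = 1, ..., 2 L`, of height `3 L / 2` up to a bounded
error. -/
def Strip (L : ℕ) : Set (ℤ × ℤ) := {p | 1 ≤ p.1 - p.2 ∧ p.1 - p.2 ≤ 2 * L}

/-- The rectangle: the vertices of the strip with `|x + 3 y| ≤ w`; the coordinate `x + 3 y` is, up
to the factor `√3 / 2` and a bounded error, the Euclidean coordinate in the direction of the
strip. -/
def Rect (L : ℕ) (w : ℝ) : Set (ℤ × ℤ) :=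
  {p | (1 ≤ p.1 - p.2 ∧ p.1 - p.2 ≤ 2 * L) ∧ |((p.1 + 3 * p.2 : ℤ) : ℝ)| ≤ w}

/-- The vertex of the last level of the strip which is opposite to `(1, 0)` (a vertex of the first
level). -/
def opp (L : ℕ) : ℤ × ℤ := (2 * L - (L / 2 : ℕ), -((L / 2 : ℕ) : ℤ))

/-- The row of edges between the levels `2 j` and `2 j + 1` is a cut row of the path: the path is
below it (levels at most `2 j`) up to some time and above it (levels at least `2 j + 1`)
afterwards. -/
def Cut (l : List (ℤ × ℤ)) (j : ℤ) : Prop :=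
  ∃ i : ℕ, (∀ p ∈ l.take i, p.1 - p.2 ≤ 2 * j) ∧ ∀ p ∈ l.drop i, 2 * j + 1 ≤ p.1 - p.2

/-- The number of cut rows `j` with `a < j ≤ a + w` and `j < L`. -/
noncomputable def Cuts (L a w : ℕ) (l : List (ℤ × ℤ)) : ℕ :=
  Set.ncard {j : ℤ | a < j ∧ j ≤ a + w ∧ j < L ∧ Cut l j}

/-- **Theorem.** Let `ρ > 0`, `κ > 0`, `θ > 0.885` and `s`. For all `L` large enough and all sets
`D` of vertices which contain the rectangle of width `2 (ρ L + 3)` and are contained in the strip,
the probability that the critical path in `D` between the opposite points `(1, 0)` and `opp L` has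
at least `w ^ θ` cut rows in some window of `w ≥ L ^ κ` consecutive rows is at most
`L ^ (-s)`. -/
theorem result (ρ κ θ : ℝ) (hρ : 0 < ρ) (hκ : 0 < κ) (hθ : 177 / 200 < θ) (s : ℕ) :
    ∃ L0 : ℕ, ∀ L : ℕ, L0 ≤ L → ∀ D : Set (ℤ × ℤ), Rect L (ρ * L + 3) ⊆ D → D ⊆ Strip L →
      Prob D (1, 0) (opp L) (fun l => ∃ a w : ℕ, a + w ≤ L ∧ (L : ℝ) ^ κ ≤ w ∧
        (w : ℝ) ^ θ ≤ (Cuts L a w l : ℝ)) ≤ ENNReal.ofReal (1 / (L : ℝ) ^ s) :=
  Pool.Agent.TH232.CR.final ρ κ θ hρ hκ hθ s

end Pool.Agent.Results.MP_4960b8_pr.FixedEndsCutRows
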