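import Pool.Agent.TH508.ON.Explore

set_option autoImplicit false

/-!
The loop O(n) model on the honeycomb lattice (brick-wall coordinates) with a boundary path, for
every `n ∈ [0, 2]`, at `x_c(n) = [2 + √(2-n)]^(-1/2)` and at the integrable point
`[2 - √(2-n)]^(-1/2)` of the dense phase.
-/

namespace Pool.Agent.Results.MP_4960b8_pr.MacroscopicAllN

open H978R2.Hex (Adj)

/-- A loop of the lattice, as a set of edges: a closed walk `f` through `k ≥ 3` distinct vertices,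
written as a `k`-periodic function. -/
def IsLoop (c : Finset (Sym2 (ℤ × ℤ))) : Prop :=
  ∃ (k : ℕ) (f : ℤ → ℤ × ℤ), 3 ≤ k ∧ (∀ i j, f i = f j ↔ (k : ℤ) ∣ i - j) ∧
    (∀ i, Adj (f i) (f (i + 1))) ∧ ∀ e, e ∈ c ↔ ∃ i, e = s(f i, f (i + 1))

/-- `v` is a vertex of `c` -/
def On (v : ℤ × ℤ) (c : Finset (Sym2 (ℤ × ℤ))) : Prop := ∃ e ∈ c, v ∈ e

/-- The loop configurations of `U`: finite sets of pairwise vertex-disjoint loops with all their
vertices in `U`. -/
def LoopConf (U : Finset (ℤ × ℤ)) : Set (Finset (Finset (Sym2 (ℤ × ℤ)))) :=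
  {L | (∀ c ∈ L, IsLoop c ∧ ∀ v, On v c → v ∈ U) ∧
    ∀ c ∈ L, ∀ d ∈ L, c ≠ d → ∀ v, On v c → ¬ On v d}

/-- The weight `n ^ (number of loops) * x ^ (number of edges)`. -/
noncomputable def lweight (n x : ℝ) (L : Finset (Finset (Sym2 (ℤ × ℤ)))) : ℝ :=
  n ^ L.card * x ^ (∑ c ∈ L, c.card)

/-- The partition function of the loop O(n) model in `U`. -/
noncomputable def Z (n x : ℝ) (U : Finset (ℤ × ℤ)) : ℝ := ∑ᶠ L ∈ LoopConf U, lweight n x L

/-- Paths of the finite set `S` which start in the middle of the edge from `(0,0)` to `(1,0)`: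
`q.1 = [v_1, …, v_m]` are the visited vertices (distinct, in `S`), and `q.2 ∉ S` is the vertex at
the other end of the last edge, in whose middle the path stops; the first vertex of
`v_1, …, v_m, q.2` is `(1,0)`. (The path does not come back through the first edge.) -/
def Paths (S : Finset (ℤ × ℤ)) : Set (List (ℤ × ℤ) × (ℤ × ℤ)) :=
  {q | (q.1 ++ [q.2]).head? = some (1, 0) ∧ q.1.Nodup ∧ (∀ v ∈ q.1, v ∈ S) ∧
    (q.1 ++ [q.2]).IsChain Adj ∧ q.2 ∉ S ∧ (q.1.length = 1 → q.2 ≠ (0, 0))}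

/-- Number of left turns minus number of right turns of a list of vertices. -/
def turns : List (ℤ × ℤ) → ℤ
  | x :: y :: z :: t => H978R2.Hex.turn x y z + turns (y :: z :: t)
  | _ => 0

/-- The normalised weight of a path in the O(n) model in `S`. -/
noncomputable def wt (n x : ℝ) (S : Finset (ℤ × ℤ)) (q : List (ℤ × ℤ) × (ℤ × ℤ)) : ℝ :=
  x ^ q.1.length * Z n x (S \ q.1.toFinset) / Z n x S

/-- Total normalised weight of the paths whose exit vertex satisfies `Q`. -/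
noncomputable def R (n x : ℝ) (S : Finset (ℤ × ℤ)) (Q : ℤ × ℤ → Prop) : ℝ :=
  ∑ᶠ q ∈ {q | q ∈ Paths S ∧ Q q.2}, wt n x S q

/-- The law of the boundary path with free end: probability that the exit vertex satisfies `Q`. -/
noncomputable def Pr (n x : ℝ) (S : Finset (ℤ × ℤ)) (Q : ℤ × ℤ → Prop) : ℝ :=
  R n x S Q / R n x S (fun _ => True)

/-- The wedge of type `(u, w)`, `u ∈ {3, 4, 5}`, `w ∈ {2, 3, 4}`, with apex at the start: its
opening is `60 (u + w - 3)` degrees, `60 (u - 2)` above the horizontal axis and `60 (w - 1)` below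
it. `(5, 4)` is the complement of the slit `{v.2 = 0, v.1 ≤ 0}`. -/
def Wedge (u w : ℤ) (v : ℤ × ℤ) : Prop :=
  (v.2 = 0 → 1 ≤ v.1) ∧ (1 ≤ v.2 → (u = 4 → 2 ≤ v.1 + v.2) ∧ (u = 3 → 1 ≤ v.1 - v.2)) ∧
    (v.2 ≤ -1 → (w = 3 → 1 ≤ v.1 - v.2) ∧ (w = 2 → 0 ≤ v.1 + v.2))

/-- The hexagon of radius `N` centred at the apex. -/
def Hexagon (N : ℤ) (v : ℤ × ℤ) : Prop :=
  -N ≤ v.2 ∧ v.2 ≤ N ∧ -2 * N ≤ v.1 + v.2 ∧ v.1 + v.2 ≤ 2 * N + 1 ∧
    -2 * N + 1 ≤ v.1 - v.2 ∧ v.1 - v.2 ≤ 2 * N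

/-- The vertices of `B` which are not on a loop of `L` leaving `B`. -/
noncomputable def rest (B : Finset (ℤ × ℤ)) (L : Finset (Finset (Sym2 (ℤ × ℤ)))) :
    Finset (ℤ × ℤ) :=
  open Classical in B.filter (fun v => ∀ c ∈ L, On v c → ∀ w, On w c → w ∈ B)

/-- Total weight of the pairs: a loop configuration `L` of `S`, and a path in `rest B L` which
avoids all loops of `L` and whose exit vertex (outside of `B`, or on a loop of `L` leaving `B`)
satisfies `Q`. -/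
noncomputable def Y (n x : ℝ) (S B : Finset (ℤ × ℤ)) (Q : ℤ × ℤ → Prop) : ℝ :=
  ∑ᶠ L ∈ LoopConf S, lweight n x L *
    ∑ᶠ q ∈ {q | q ∈ Paths (rest B L) ∧ (∀ c ∈ L, ∀ v ∈ q.1, ¬ On v c) ∧ Q q.2}, x ^ q.1.length

/-- `λ(n)`: `n = - 2 cos (4 λ)`, `π/8 ≤ λ ≤ π/4`. -/
noncomputable def lam (n : ℝ) : ℝ := Real.arccos (-(n / 2)) / 4

/-! ### Translation -/

theorem isLoop_iff (c : Finset (Sym2 (ℤ × ℤ))) : IsLoop c ↔ TH508.ON.IsLoop c := by
  constructor
  · rintro ⟨k, f, h1, h2, h3, h4⟩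
    exact ⟨k, f, ⟨h1, h2, h3⟩, h4⟩
  · rintro ⟨k, f, ⟨h1, h2, h3⟩, h4⟩
    exact ⟨k, f, h1, h2, h3, h4⟩

theorem on_iff {v : ℤ × ℤ} {c : Finset (Sym2 (ℤ × ℤ))} : On v c ↔ v ∈ TH508.ON.verts c :=
  TH508.ON.mem_verts.symm

theorem loopConf_eq (U : Finset (ℤ × ℤ)) :
    LoopConf U = ↑(TH508.ON.fam (TH508.ON.loops U) TH508.ON.verts) := by
  ext L
  rw [Finset.mem_coe, TH508.ON.mem_fam]
  constructor
  · rintro ⟨h1, h2⟩
    refine ⟨fun c hc => ?_, fun c hc d hd hne => ?_⟩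
    · obtain ⟨h3, h4⟩ := h1 c hc
      exact TH508.ON.mem_loops.2 ⟨fun v hv => h4 v (on_iff.2 hv), (isLoop_iff c).1 h3⟩
    · rw [Finset.disjoint_left]
      intro v hv hv'
      exact h2 c hc d hd hne v (on_iff.2 hv) (on_iff.2 hv')
  · rintro ⟨h1, h2⟩
    refine ⟨fun c hc => ?_, fun c hc d hd hne v hv hv' => ?_⟩
    · obtain ⟨h3, h4⟩ := TH508.ON.mem_loops.1 (h1 hc)
      exact ⟨(isLoop_iff c).2 h4, fun v hv => h3 (on_iff.1 hv)⟩
    · exact Finset.disjoint_left.1 (h2 c hc d hd hne) (on_iff.1 hv) (on_iff.1 hv')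

theorem lweight_eq (n x : ℝ) (L : Finset (Finset (Sym2 (ℤ × ℤ)))) :
    lweight n x L = ∏ c ∈ L, TH508.ON.lw n x c := by
  unfold lweight TH508.ON.lw
  rw [Finset.prod_mul_distrib, Finset.prod_const, Finset.prod_pow_eq_pow_sum]

theorem Z_eq (n x : ℝ) (U : Finset (ℤ × ℤ)) : Z n x U = TH508.ON.ZL n x U := by
  unfold Z TH508.ON.ZL TH508.ON.gasZ
  rw [loopConf_eq, finsum_mem_coe_finset]
  exact Finset.sum_congr rfl fun L _ => lweight_eq n x L

theorem turns_eq : ∀ L : List (ℤ × ℤ), turns L = TH508.ON.turns L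
  | [] => rfl
  | [_] => rfl
  | [_, _] => rfl
  | x :: y :: z :: t => by
    rw [turns, TH508.ON.turns, turns_eq (y :: z :: t)]

theorem wt_eq (n x : ℝ) (S : Finset (ℤ × ℤ)) (q : List (ℤ × ℤ) × (ℤ × ℤ)) :
    wt n x S q = TH508.ON.wt n x S q := by
  unfold wt TH508.ON.wt
  rw [Z_eq, Z_eq]

theorem R_eq (n x : ℝ) (S : Finset (ℤ × ℤ)) (Q : ℤ × ℤ → Prop) :
    R n x S Q = TH508.ON.mass n x S {v | Q v} := by
  unfold R TH508.ON.mass
  exact finsum_mem_congr rfl (fun q _ => wt_eq n x S q)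

theorem R_true (n x : ℝ) (S : Finset (ℤ × ℤ)) :
    R n x S (fun _ => True) = TH508.ON.mass n x S Set.univ := by
  rw [R_eq]
  congr 1

theorem rest_eq (B : Finset (ℤ × ℤ)) (L : Finset (Finset (Sym2 (ℤ × ℤ)))) :
    rest B L = TH508.ON.rest B L := by
  classical
  ext v
  unfold rest TH508.ON.rest
  rw [Finset.mem_filter, Finset.mem_sdiff, Finset.mem_biUnion]
  refine and_congr_right fun _ => ?_
  constructor
  · rintro h ⟨c, hc, hv⟩
    obtain ⟨hc1, hc2⟩ := Finset.mem_filter.1 hc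
    exact hc2 fun w hw => h c hc1 (on_iff.2 hv) w (on_iff.2 hw)
  · intro h c hc hv w hw
    by_contra hwB
    exact h ⟨c, Finset.mem_filter.2 ⟨hc, fun hh => hwB (hh (on_iff.1 hw))⟩, on_iff.1 hv⟩

theorem Y_eq (n x : ℝ) (S B : Finset (ℤ × ℤ)) (Q : ℤ × ℤ → Prop) :
    Y n x S B Q = TH508.ON.YY n x S B Q := by
  unfold Y TH508.ON.YY
  rw [loopConf_eq, finsum_mem_coe_finset]
  refine Finset.sum_congr rfl fun L _ => ?_
  rw [lweight_eq, rest_eq]
  congr 1
  unfold TH508.ON.pw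
  refine finsum_mem_congr ?_ (fun _ _ => rfl)
  ext q
  refine and_congr_right fun _ => and_congr_left fun _ => ?_
  constructor
  · intro h c hc v hv hvc
    exact h c hc v hv (on_iff.2 hvc)
  · intro h c hc v hv hvc
    exact h c hc v hv (on_iff.1 hvc)

/-! ### Numerical facts -/

theorem num9 {n : ℝ} (h0 : 0 ≤ n) : 9 / 10 ≤ Real.cos (lam n * (((5 : ℤ) : ℝ) - ((4 : ℤ) : ℝ)) / 2) := by
  have h1 := TH508.ON.lam_le n
  have h2 := TH508.ON.lam_ge h0
  have hp := Real.pi_pos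
  have e : lam n = TH508.ON.lam n := rfl
  rw [e]
  have h3 : Real.cos (Real.pi / 8) ≤ Real.cos (TH508.ON.lam n * (((5 : ℤ) : ℝ) - ((4 : ℤ) : ℝ)) / 2) := by
    apply Real.cos_le_cos_of_nonneg_of_le_pi <;> push_cast <;> linarith
  refine le_trans ?_ h3
  rw [Real.cos_pi_div_eight]
  have h4 : (1.4 : ℝ) ≤ Real.sqrt 2 := by
    rw [Real.le_sqrt' (by norm_num)]
    norm_num
  have h5 : (1.8 : ℝ) ≤ Real.sqrt (2 + Real.sqrt 2) := by
    rw [Real.le_sqrt' (by norm_num)]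
    linarith
  linarith

theorem num38 {n : ℝ} (h0 : 0 ≤ n) {u w : ℤ} (hu : u = 3 ∨ u = 4 ∨ u = 5)
    (hw : w = 2 ∨ w = 3 ∨ w = 4) : 3 / 8 ≤ Real.cos (lam n * ((u : ℝ) - (w : ℝ)) / 2) := by
  have h1 : lam n ≤ Real.pi / 4 := TH508.ON.lam_le n
  have h2 : Real.pi / 8 ≤ lam n := TH508.ON.lam_ge h0
  have hp := Real.pi_pos
  have h3 : |lam n * ((u : ℝ) - (w : ℝ)) / 2| ≤ 3 * Real.pi / 8 := by
    have h4 : |(u : ℝ) - w| ≤ 3 := by
      have : |u - w| ≤ 3 := by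
        rw [abs_le]
        omega
      exact_mod_cast this
    rw [abs_le] at h4
    rw [abs_le]
    constructor <;> nlinarith
  rw [← Real.cos_abs]
  have h5 : Real.cos (3 * Real.pi / 8) ≤ Real.cos |lam n * ((u : ℝ) - (w : ℝ)) / 2| :=
    Real.cos_le_cos_of_nonneg_of_le_pi (abs_nonneg _) (by linarith) h3
  refine le_trans ?_ h5
  have e : Real.cos (3 * Real.pi / 8) = Real.sin (Real.pi / 8) := by
    rw [← Real.cos_pi_div_two_sub]
    congr 1
    ring
  rw [e, Real.sin_pi_div_eight]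
  have h6 : Real.sqrt 2 ≤ 1.4375 := Real.sqrt_le_iff.2 ⟨by norm_num, by norm_num⟩
  have h7 : (0.75 : ℝ) ≤ Real.sqrt (2 - Real.sqrt 2) := by
    rw [Real.le_sqrt' (by norm_num)]
    linarith
  linarith

theorem hex_eq {u w N : ℤ} {S : Finset (ℤ × ℤ)} (hS : ∀ v, v ∈ S ↔ Wedge u w v ∧ Hexagon N v) :
    S = TH508.ON.hexW u w N := by
  ext v
  rw [hS, TH508.ON.mem_hexW]
  rfl

/-- **Theorem.** Let `0 ≤ n ≤ 2` and let `x` be `x_c(n)` (with `t = λ(n)`) or the integrable point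
of the dense phase (with `t = π/2 - λ(n)`). -/
theorem result (n : ℝ) (h0 : 0 ≤ n) (h2 : n ≤ 2) (x t : ℝ)
    (hp : (x = 1 / Real.sqrt (2 + Real.sqrt (2 - n)) ∧ t = lam n) ∨
      (x = 1 / Real.sqrt (2 - Real.sqrt (2 - n)) ∧ t = Real.pi / 2 - lam n)) :
    -- (1) exact identity for every finite set in the complement of the slit
    (∀ S : Finset (ℤ × ℤ), (∀ v ∈ S, Wedge 5 4 v) →
      ∑ᶠ q ∈ Paths S, (wt n x S q : ℂ) *
        Complex.exp (((turns ((0, 0) :: (q.1 ++ [q.2])) * t : ℝ) : ℂ) * Complex.I) = 1) ∧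
    -- (2) all the wedges
    (∀ u w : ℤ, (u = 3 ∨ u = 4 ∨ u = 5) → (w = 2 ∨ w = 3 ∨ w = 4) →
      (∀ S : Finset (ℤ × ℤ), (∀ v ∈ S, Wedge u w v) →
        Real.cos (t * (u - w) / 2) ≤ R n x S (Wedge u w) +
          Real.cos (t * (u + w) / 2) * R n x S (fun v => ¬ Wedge u w v)) ∧
      (∀ S B : Finset (ℤ × ℤ), B ⊆ S → (∀ v ∈ B, Wedge u w v) →
        Real.cos (t * (u - w) / 2) * Z n x S ≤ Y n x S B (Wedge u w) +
          Real.cos (t * (u + w) / 2) * Y n x S B (fun v => ¬ Wedge u w v)) ∧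
      (∀ N : ℤ, 1 ≤ N → ∀ S : Finset (ℤ × ℤ), (∀ v, v ∈ S ↔ Wedge u w v ∧ Hexagon N v) →
        Real.cos (t * (u + w - 4) / 2) * R n x S (Wedge u w) +
          Real.cos (t * (u + w) / 2) * R n x S (fun v => ¬ Wedge u w v) ≤
            Real.cos (t * (u - w) / 2)) ∧
      (∀ S : Finset (ℤ × ℤ), (∀ v ∈ S, Wedge u w v) → 0 ≤ Real.cos (t * (u - w) / 2) →
        ∀ c : ℝ, 0 ≤ c → Real.cos (t * (u + w) / 2) ≤ -c →
          c / (1 + c) ≤ Pr n x S (Wedge u w))) ∧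
    -- (3) opening 300 degrees
    (∀ S : Finset (ℤ × ℤ), (∀ v ∈ S, Wedge 4 4 v) →
      1 + n / 2 * R n x S (fun v => ¬ Wedge 4 4 v) ≤ R n x S (Wedge 4 4) ∧
      n / (n + 2) ≤ Pr n x S (Wedge 4 4)) ∧
    (∀ N : ℤ, 1 ≤ N → ∀ S : Finset (ℤ × ℤ), (∀ v, v ∈ S ↔ Wedge 4 4 v ∧ Hexagon N v) →
      ∃ z, Wedge 4 4 z ∧ ¬ Hexagon N z ∧ 1 / (42 * N) ≤ R n x S (fun v => v = z)) ∧
    -- (4) the critical point `x_c(n)`
    (t = lam n →
      (∀ S : Finset (ℤ × ℤ), (∀ v ∈ S, Wedge 5 4 v) →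
        9 / 10 ≤ R n x S (Wedge 5 4) ∧ 4 / 25 ≤ Pr n x S (Wedge 5 4)) ∧
      (∀ u w : ℤ, (u = 3 ∨ u = 4 ∨ u = 5) → (w = 2 ∨ w = 3 ∨ w = 4) →
        (Real.pi ≤ (u + w) * lam n → ∀ S : Finset (ℤ × ℤ), (∀ v ∈ S, Wedge u w v) →
          3 / 8 ≤ R n x S (Wedge u w)) ∧
        ((u + w) * lam n ≤ Real.pi → ∀ N : ℤ, 1 ≤ N → ∀ S : Finset (ℤ × ℤ),
          (∀ v, v ∈ S ↔ Wedge u w v ∧ Hexagon N v) → R n x S (Wedge u w) ≤ Real.sqrt 2))) := by
  obtain ⟨hx0, hn, hx, ht0, ht1⟩ := TH508.ON.Pt.facts (n := n) (x := x) (t := t) hp h0 h2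
  have hpi := Real.pi_pos
  have hWide : ∀ u w : ℤ, (u = 3 ∨ u = 4 ∨ u = 5) → (w = 2 ∨ w = 3 ∨ w = 4) →
      ∀ S : Finset (ℤ × ℤ), (∀ v ∈ S, Wedge u w v) →
        Real.cos (t * (u - w) / 2) ≤ R n x S (Wedge u w) +
          Real.cos (t * (u + w) / 2) * R n x S (fun v => ¬ Wedge u w v) := by
    intro u w hu hw S hS
    rw [R_eq, R_eq]
    exact TH508.ON.wide h0 hx0 hn hx hu hw hS
  have hNarrow : ∀ u w : ℤ, (u = 3 ∨ u = 4 ∨ u = 5) → (w = 2 ∨ w = 3 ∨ w = 4) →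
      ∀ N : ℤ, 1 ≤ N → ∀ S : Finset (ℤ × ℤ), (∀ v, v ∈ S ↔ Wedge u w v ∧ Hexagon N v) →
        Real.cos (t * (u + w - 4) / 2) * R n x S (Wedge u w) +
          Real.cos (t * (u + w) / 2) * R n x S (fun v => ¬ Wedge u w v) ≤
            Real.cos (t * (u - w) / 2) := by
    intro u w hu hw N hN S hS
    rw [hex_eq hS, R_eq, R_eq]
    refine TH508.ON.narrow h0 hx0 hn hx ht0 hu hw ?_ hN
    have h3 : (u : ℝ) + w - 4 ≤ 5 := by
      have : u + w - 4 ≤ 5 := by omega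
      exact_mod_cast this
    nlinarith
  have hProb : ∀ u w : ℤ, (u = 3 ∨ u = 4 ∨ u = 5) → (w = 2 ∨ w = 3 ∨ w = 4) →
      ∀ S : Finset (ℤ × ℤ), (∀ v ∈ S, Wedge u w v) → 0 ≤ Real.cos (t * (u - w) / 2) →
        ∀ c : ℝ, 0 ≤ c → Real.cos (t * (u + w) / 2) ≤ -c →
          c / (1 + c) ≤ Pr n x S (Wedge u w) := by
    intro u w hu hw S hS hc c hc0 hcc
    unfold Pr
    rw [R_true, R_eq]
    exact TH508.ON.prob_ge h0 hx0 hn hx hu hw hS hc hc0 hcc
  have hnn : ∀ S : Finset (ℤ × ℤ), ∀ u w : ℤ, (∀ v ∈ S, Wedge u w v) → ∀ Q : ℤ × ℤ → Prop,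
      0 ≤ R n x S Q := by
    intro S u w hS Q
    classical
    rw [R_eq]
    exact TH508.ON.mass_nonneg' h0 hx0.le (TH508.ON.zero_notMem hS) Q
  have c44 : Real.cos (t * (((4 : ℤ) : ℝ) + ((4 : ℤ) : ℝ)) / 2) = -(n / 2) := by
    have e : t * (((4 : ℤ) : ℝ) + ((4 : ℤ) : ℝ)) / 2 = 4 * t := by push_cast; ring
    rw [e]
    linarith
  have d44 : Real.cos (t * (((4 : ℤ) : ℝ) - ((4 : ℤ) : ℝ)) / 2) = 1 := by
    have e : t * (((4 : ℤ) : ℝ) - ((4 : ℤ) : ℝ)) / 2 = 0 := by push_cast; ring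
    rw [e, Real.cos_zero]
  have h44 : ∀ S : Finset (ℤ × ℤ), (∀ v ∈ S, Wedge 4 4 v) →
      1 + n / 2 * R n x S (fun v => ¬ Wedge 4 4 v) ≤ R n x S (Wedge 4 4) := by
    intro S hS
    have h := hWide 4 4 (by norm_num) (by norm_num) S hS
    rw [c44, d44] at h
    linarith
  refine ⟨?_, ?_, ?_, ?_, ?_⟩
  · intro S hS
    have h00 : ((0, 0) : ℤ × ℤ) ∉ S := TH508.ON.zero_notMem hS
    have hsl : ∀ v ∈ S, ¬ H978R2.Hex.Slit v := fun v hv => TH508.ON.wq_slit (hS v hv)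
    have hi := TH508.ON.ident_c h0 hx0 hn hx S hsl
    have hs := TH508.ON.sum_paths' (M := ℂ) h00 (fun _ => True) (fun _ => True)
      (fun q => (wt n x S q : ℂ) *
        Complex.exp (((turns ((0, 0) :: (q.1 ++ [q.2])) * t : ℝ) : ℂ) * Complex.I))
      (fun l => (TH508.ON.wL n x S l : ℂ) * TH508.ON.ph t l) (fun _ _ => Iff.rfl) (by
        intro q hq
        rw [wt_eq, TH508.ON.wt_eq h00, turns_eq]
        congr 1
        unfold TH508.ON.ph
        rw [← TH508.ON.wnd_eq]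
        unfold TH508.ON.wnd
        congr 1
        push_cast
        ring)
    rw [Finset.filter_true_of_mem (fun _ _ => trivial), hi] at hs
    rw [← hs]
    refine finsum_mem_congr ?_ (fun _ _ => rfl)
    ext q
    exact ⟨fun h => ⟨h, trivial⟩, fun h => h.1⟩
  · intro u w hu hw
    refine ⟨hWide u w hu hw, ?_, hNarrow u w hu hw, hProb u w hu hw⟩
    intro S B hBS hB
    rw [Z_eq, Y_eq, Y_eq]
    exact TH508.ON.explore h0 hx0 hn hx hu hw hBS hB
  · intro S hS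
    refine ⟨h44 S hS, ?_⟩
    have h := hProb 4 4 (by norm_num) (by norm_num) S hS (by rw [d44]; norm_num) (n / 2)
      (by linarith) (by rw [c44])
    have e : n / 2 / (1 + n / 2) = n / (n + 2) := by
      have h3 : (1 + n / 2 : ℝ) ≠ 0 := by positivity
      have h4 : (n + 2 : ℝ) ≠ 0 := by positivity
      field_simp
      ring
    rw [← e]
    exact h
  · intro N hN S hS
    have hS' : ∀ v ∈ S, Wedge 4 4 v := fun v hv => ((hS v).1 hv).1
    have h3 : 1 ≤ TH508.ON.farM n x 4 4 (TH508.ON.hexW 4 4 N) := by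
      have h4 := h44 S hS'
      have h5 := hnn S 4 4 hS' (fun v => ¬ Wedge 4 4 v)
      have h6 : R n x S (Wedge 4 4) = TH508.ON.farM n x 4 4 (TH508.ON.hexW 4 4 N) := by
        rw [hex_eq hS, R_eq]
        rfl
      rw [← h6]
      nlinarith
    obtain ⟨z, hz1, hz2, hz3⟩ := TH508.ON.best_exit h0 hx0.le hN one_pos h3
    refine ⟨z, hz1, hz2, ?_⟩
    rw [hex_eq hS, R_eq]
    exact hz3
  · intro ht
    refine ⟨?_, ?_⟩
    · intro S hS
      have hc9 : Real.cos (t * (((5 : ℤ) : ℝ) + ((4 : ℤ) : ℝ)) / 2) ≤ -Real.sin (Real.pi / 16) := by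
        rw [ht]
        have h := TH508.ON.cos9 h0
        push_cast
        exact h
      have hd := num9 h0
      rw [← ht] at hd
      have hs16 : (0.194 : ℝ) ≤ Real.sin (Real.pi / 16) := by
        have h1 := Real.pi_gt_d2
        have h2 := Real.pi_lt_d2
        have h3 := Real.sin_gt_sub_cube (x := Real.pi / 16) (by linarith)
        have h4 : (Real.pi / 16) ^ 3 ≤ (0.1970 : ℝ) ^ 3 :=
          pow_le_pow_left₀ (by linarith) (by linarith) 3
        have h5 : (0.1970 : ℝ) ^ 3 ≤ 0.0077 := by norm_num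
        linarith
      constructor
      · have h := hWide 5 4 (by norm_num) (by norm_num) S hS
        have h3 := hnn S 5 4 hS (fun v => ¬ Wedge 5 4 v)
        nlinarith
      · have h := hProb 5 4 (by norm_num) (by norm_num) S hS (by linarith) 0.194 (by norm_num)
          (by linarith)
        refine le_trans ?_ h
        norm_num
    · intro u w hu hw
      constructor
      · intro hw2 S hS
        have h := hWide u w hu hw S hS
        have h3 := hnn S u w hS (fun v => ¬ Wedge u w v)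
        have h4 := num38 h0 hu hw
        rw [← ht] at h4 hw2
        have h5 : Real.cos (t * (u + w) / 2) ≤ 0 := by
          apply Real.cos_nonpos_of_pi_div_two_le_of_le
          · linarith
          · have h6 : (u : ℝ) + w ≤ 9 := by
              have : u + w ≤ 9 := by omega
              exact_mod_cast this
            have h7 : t ≤ Real.pi / 4 := by
              rw [ht]
              exact TH508.ON.lam_le n
            nlinarith
        nlinarith
      · intro hw2 N hN S hS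
        have h := hNarrow u w hu hw N hN S hS
        have hS' : ∀ v ∈ S, Wedge u w v := fun v hv => ((hS v).1 hv).1
        have h3 := hnn S u w hS' (fun v => ¬ Wedge u w v)
        have h3' := hnn S u w hS' (Wedge u w)
        have h8 : Real.pi / 8 ≤ t := by
          rw [ht]
          exact TH508.ON.lam_ge h0
        rw [← ht] at hw2
        have h9 : (5 : ℝ) ≤ u + w := by
          have : 5 ≤ u + w := by omega
          exact_mod_cast this
        have h5 : 0 ≤ Real.cos (t * (u + w) / 2) := by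
          apply Real.cos_nonneg_of_mem_Icc
          constructor
          · nlinarith
          · linarith
        have h6 : Real.cos (Real.pi / 4) ≤ Real.cos (t * (u + w - 4) / 2) := by
          apply Real.cos_le_cos_of_nonneg_of_le_pi
          · nlinarith
          · linarith
          · nlinarith
        rw [Real.cos_pi_div_four] at h6
        have h7 := Real.cos_le_one (t * (u - w) / 2)
        have h10 : Real.sqrt 2 / 2 * R n x S (Wedge u w) ≤ 1 := by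
          have := mul_nonneg h5 h3
          have h11 := mul_le_mul_of_nonneg_right h6 h3'
          linarith
        have h12 : Real.sqrt 2 * Real.sqrt 2 = 2 := Real.mul_self_sqrt (by norm_num)
        have h13 := Real.sqrt_nonneg 2
        calc R n x S (Wedge u w) = Real.sqrt 2 * (Real.sqrt 2 / 2 * R n x S (Wedge u w)) := by
              linear_combination (-(R n x S (Wedge u w)) / 2) * h12
          _ ≤ Real.sqrt 2 * 1 := mul_le_mul_of_nonneg_left h10 h13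
          _ = Real.sqrt 2 := mul_one _

end Pool.Agent.Results.MP_4960b8_pr.MacroscopicAllN
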