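import Pool.Agent.TH232.WX.Lim

set_option autoImplicit false

/-!
Critical self-avoiding walk on the honeycomb lattice (the case `n = 0`, `x = x_c(0)` of the O(n)
boundary path) started at the apex of a lattice wedge of 60, 120, 180, 240 or 360 degrees: explicit
exponents for the critical partition function of the paths which reach distance `N`, and the exact
critical weights of the paths which end on the two sides of the wedge.
-/

namespace Pool.Agent.Results.MP_4960b8_pr.WedgeExponents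

open Pool.Agent.TH232.WX

/-- adjacency of the honeycomb lattice in brick-wall coordinates -/
def Adj (p q : ℤ × ℤ) : Prop :=
  q - p = (1, 0) ∨ q - p = (-1, 0) ∨
  (q - p = (0, 1) ∧ Even (p.1 + p.2)) ∨
  (q - p = (0, -1) ∧ Even (q.1 + q.2))

/-- the lattice wedge of opening `60 j` degrees, `j = 1, 2, 3, 4`, with apex `(0,0)`; its lower side
is the ray `y = 0`, `x ≤ 0`, approached from below -/
def Wedge (j : ℕ) (v : ℤ × ℤ) : Prop :=
  (v.2 = 0 → 1 ≤ v.1) ∧ (1 ≤ v.2 → j = 4 ∧ 1 ≤ v.1 - v.2) ∧ (j ≤ 2 → v.1 + v.2 ≤ 1) ∧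
    (j ≤ 1 → v.1 - v.2 ≤ 2)

/-- the slit plane, opening 360 degrees -/
def SlitPlane (v : ℤ × ℤ) : Prop := v.2 = 0 → 1 ≤ v.1

/-- the lattice hexagon of radius `N` -/
def Hexagon (N : ℤ) (v : ℤ × ℤ) : Prop :=
  -N ≤ v.2 ∧ v.2 ≤ N ∧ -2 * N ≤ v.1 + v.2 ∧ v.1 + v.2 ≤ 2 * N + 1 ∧
    -2 * N + 1 ≤ v.1 - v.2 ∧ v.1 - v.2 ≤ 2 * N

/-- the self-avoiding walks `f 0 = (0,0), f 1 = (1,0), f 2, …, f (m+1)` with `f 1, …, f m` in `D` and
the last vertex `f (m+1)` in `Q` -/
def Walks (D Q : ℤ × ℤ → Prop) (m : ℕ) : Set (Fin (m + 2) → ℤ × ℤ) :=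
  {f | (f 0 = (0, 0) ∧ f 1 = (1, 0) ∧ Function.Injective f ∧
    (∀ i : Fin (m + 1), Adj (f i.castSucc) (f i.succ)) ∧
    ∀ i : Fin (m + 1), i ≠ 0 → D (f i.castSucc)) ∧ Q (f (Fin.last (m + 1)))}

/-- critical weight -/
noncomputable def xc : ℝ := 1 / Real.sqrt (2 + Real.sqrt 2)

/-- critical partition function of these walks -/
noncomputable def Z (D Q : ℤ × ℤ → Prop) : ℝ := ∑' m : ℕ, (Set.ncard (Walks D Q m) : ℝ) * xc ^ m

/-- critical partition function of the walks in `E` stopped when they leave the hexagon -/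
noncomputable def Exit (E : ℤ × ℤ → Prop) (N : ℤ) : ℝ :=
  Z (fun v => E v ∧ Hexagon N v) (fun v => E v ∧ ¬ Hexagon N v)

/-- the lower side of the wedges -/
def Low (v : ℤ × ℤ) : Prop := v.2 = 0 ∧ v.1 ≤ 0

/-- the upper side of the wedge (the remaining part of the complement) -/
def Upp (j : ℕ) (v : ℤ × ℤ) : Prop := ¬ Wedge j v ∧ ¬ Low v

theorem wedge_iff (j : ℕ) (v : ℤ × ℤ) : Wedge j v ↔ Wg (j + 2) v := by
  unfold Wedge Wg
  constructor
  · rintro ⟨a, b, c, d⟩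
    exact ⟨a, fun h => ⟨by have := (b h).1; omega, (b h).2⟩, fun h => c (by omega),
      fun h => d (by omega)⟩
  · rintro ⟨a, b, c, d⟩
    exact ⟨a, fun h => ⟨by have := (b h).1; omega, (b h).2⟩, fun h => c (by omega),
      fun h => d (by omega)⟩

theorem wedge_eq (j : ℕ) : Wedge j = Wg (j + 2) := by
  funext v
  exact propext (wedge_iff j v)

theorem slit_eq : SlitPlane = H978R3.Wedge.Wd 6 := by
  funext v
  unfold SlitPlane H978R3.Wedge.Wd
  simp

theorem z_eq (D Q : ℤ × ℤ → Prop) : Z D Q = Zq D Q := rfl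

theorem exit_eq (E : ℤ × ℤ → Prop) (N : ℤ) : Exit E N = H978R3.Wedge.Zc E N := rfl

theorem upp_eq (j : ℕ) : Upp j = fun z => ¬ Wg (j + 2) z ∧ ¬ H978R2.Hex.Slit z := by
  funext v
  unfold Upp Low H978R2.Hex.Slit
  rw [wedge_eq]

theorem cos_cj (j : ℕ) : cj (j + 2) = Real.cos (((j : ℝ) - 1) * (Real.pi / 8)) := by
  unfold cj
  congr 1
  push_cast
  ring

theorem tan_sj (j : ℕ) : sj (j + 2) / cj (j + 2) = Real.tan (((j : ℝ) - 1) * (Real.pi / 8)) := by
  rw [Real.tan_eq_sin_div_cos, cos_cj]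
  unfold sj
  congr 2
  push_cast
  ring

/-- the statement for one wedge -/
theorem sides_j (j : ℕ) (hj : 2 ≤ j) (hj4 : j ≤ 4) :
    (∀ N : ℤ, 1 ≤ N →
      |Z (fun v => Wedge j v ∧ Hexagon N v) (Upp j) -
        1 / Real.cos (((j : ℝ) - 1) * (Real.pi / 8))| ≤ 3 * cst (j + 2) * (N : ℝ) ^ (-th (j + 2)) ∧
      |Z (fun v => Wedge j v ∧ Hexagon N v) Low - Real.tan (((j : ℝ) - 1) * (Real.pi / 8))| ≤
        4 * cst (j + 2) * (N : ℝ) ^ (-th (j + 2))) ∧
    HasSum (fun m : ℕ => (Set.ncard (Walks (Wedge j) (Upp j) m) : ℝ) * xc ^ m)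
      (1 / Real.cos (((j : ℝ) - 1) * (Real.pi / 8))) ∧
    HasSum (fun m : ℕ => (Set.ncard (Walks (Wedge j) Low m) : ℝ) * xc ^ m)
      (Real.tan (((j : ℝ) - 1) * (Real.pi / 8))) := by
  have h : ∀ N : ℤ, 1 ≤ N →
      |Zq (fun v => Wg (j + 2) v ∧ H978R3.Wedge.Hx N v)
        (fun z => ¬ Wg (j + 2) z ∧ ¬ H978R2.Hex.Slit z) -
        1 / cj (j + 2)| ≤ 3 * cst (j + 2) * (N : ℝ) ^ (-th (j + 2)) ∧
      |Zq (fun v => Wg (j + 2) v ∧ H978R3.Wedge.Hx N v) H978R2.Hex.Slit -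
        sj (j + 2) / cj (j + 2)| ≤ 4 * cst (j + 2) * (N : ℝ) ^ (-th (j + 2)) := fun N hN =>
    sides_walks (by omega) (by omega) N hN
  have hu := hasSum_wedge (J := j + 2) (by omega) (by omega)
    (fun z => ¬ Wg (j + 2) z ∧ ¬ H978R2.Hex.Slit z) (1 / cj (j + 2)) (3 * cst (j + 2))
    (th (j + 2)) (th_pos _) (fun N hN => (h N hN).1)
  have hl := hasSum_wedge (J := j + 2) (by omega) (by omega)
    H978R2.Hex.Slit (sj (j + 2) / cj (j + 2)) (4 * cst (j + 2)) (th (j + 2))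
    (th_pos _) (fun N hN => (h N hN).2)
  have hlow : Low = H978R2.Hex.Slit := rfl
  have hhex : Hexagon = H978R3.Wedge.Hx := rfl
  rw [← cos_cj, ← tan_sj, upp_eq, wedge_eq, hlow, hhex]
  simp only [z_eq]
  exact ⟨h, hu, hl⟩

/-- **Theorem.** Critical self-avoiding walks on the honeycomb lattice from the apex.
(1) The partition function `Exit E N` of the walks in `E` stopped when they leave the hexagon of
radius `N` is at most `32 N^(-3/4)`, `6 N^(-0.27)`, `3.5 N^(-0.115)`, `3 N^(-1/24)` if `E` is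
contained in the wedge of opening 60, 120, 180, 240 degrees.
(2) In the slit plane it is at least `0.45 N^(2/75)`.
(3) The critical weights of the walks of the wedge of opening `60 j` degrees, `j = 2, 3, 4`, which
end on the upper and on the lower side are exactly `1 / cos ((j-1) π/8)` and `tan ((j-1) π/8)`, and
(4) the walks inside the hexagon of radius `N` give these values up to `O(N^(-0.27))`,
`O(N^(-0.115))`, `O(N^(-1/24))`. -/
theorem result :
    (∀ N : ℤ, 1 ≤ N → ∀ E : ℤ × ℤ → Prop,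
      ((∀ v, E v → Wedge 1 v) → Exit E N ≤ 32 * (N : ℝ) ^ (-(3 / 4) : ℝ)) ∧
      ((∀ v, E v → Wedge 2 v) → Exit E N ≤ 6 * (N : ℝ) ^ (-(27 / 100) : ℝ)) ∧
      ((∀ v, E v → Wedge 3 v) → Exit E N ≤ 7 / 2 * (N : ℝ) ^ (-(23 / 200) : ℝ)) ∧
      ((∀ v, E v → Wedge 4 v) → Exit E N ≤ 3 * (N : ℝ) ^ (-(1 / 24) : ℝ))) ∧
    (∀ N : ℤ, 1 ≤ N → 9 / 20 * (N : ℝ) ^ ((2 : ℝ) / 75) ≤ Exit SlitPlane N) ∧
    (∀ j : ℕ, 2 ≤ j → j ≤ 4 →
      HasSum (fun m : ℕ => (Set.ncard (Walks (Wedge j) (Upp j) m) : ℝ) * xc ^ m)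
        (1 / Real.cos (((j : ℝ) - 1) * (Real.pi / 8))) ∧
      HasSum (fun m : ℕ => (Set.ncard (Walks (Wedge j) Low m) : ℝ) * xc ^ m)
        (Real.tan (((j : ℝ) - 1) * (Real.pi / 8)))) ∧
    (∀ (j : ℕ) (θ : ℝ), ((j = 2 ∧ θ = 27 / 100) ∨ (j = 3 ∧ θ = 23 / 200) ∨ (j = 4 ∧ θ = 1 / 24)) →
      ∀ N : ℤ, 1 ≤ N →
        |Z (fun v => Wedge j v ∧ Hexagon N v) (Upp j) -
          1 / Real.cos (((j : ℝ) - 1) * (Real.pi / 8))| ≤ 18 * (N : ℝ) ^ (-θ) ∧
        |Z (fun v => Wedge j v ∧ Hexagon N v) Low - Real.tan (((j : ℝ) - 1) * (Real.pi / 8))| ≤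
          24 * (N : ℝ) ^ (-θ)) := by
  refine ⟨?_, ?_, ?_, ?_⟩
  · intro N hN E
    refine ⟨fun hE => ?_, fun hE => ?_, fun hE => ?_, fun hE => ?_⟩
    · rw [wedge_eq] at hE
      rw [exit_eq]
      refine ((Zc_mono' (J := 1 + 2) (by norm_num) (by norm_num) hE N hN).trans
        (far_walks (by norm_num) (by norm_num) N hN)).trans (le_of_eq ?_)
      norm_num [cst, th]
    · rw [wedge_eq] at hE
      rw [exit_eq]
      refine ((Zc_mono' (J := 2 + 2) (by norm_num) (by norm_num) hE N hN).trans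
        (far_walks (by norm_num) (by norm_num) N hN)).trans (le_of_eq ?_)
      norm_num [cst, th]
    · rw [wedge_eq] at hE
      rw [exit_eq]
      refine ((Zc_mono' (J := 3 + 2) (by norm_num) (by norm_num) hE N hN).trans
        (far_walks (by norm_num) (by norm_num) N hN)).trans (le_of_eq ?_)
      norm_num [cst, th]
    · rw [wedge_eq] at hE
      rw [exit_eq]
      refine ((Zc_mono' (J := 4 + 2) (by norm_num) (by norm_num) hE N hN).trans
        (far_walks (by norm_num) (by norm_num) N hN)).trans (le_of_eq ?_)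
      norm_num [cst, th]
  · intro N hN
    rw [slit_eq, exit_eq]
    exact slit_lower N hN
  · intro j hj hj4
    exact (sides_j j hj hj4).2
  · intro j θ hjθ N hN
    have hNpos : (0 : ℝ) < N := by exact_mod_cast (by omega : 0 < N)
    rcases hjθ with ⟨rfl, rfl⟩ | ⟨rfl, rfl⟩ | ⟨rfl, rfl⟩
    · obtain ⟨h1, h2⟩ := (sides_j 2 (by norm_num) (by norm_num)).1 N hN
      have e1 : cst (2 + 2) = 6 := by norm_num [cst]
      have e2 : th (2 + 2) = 27 / 100 := by norm_num [th]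
      rw [e1, e2] at h1 h2
      constructor <;> linarith
    · obtain ⟨h1, h2⟩ := (sides_j 3 (by norm_num) (by norm_num)).1 N hN
      have e1 : cst (3 + 2) = 7 / 2 := by norm_num [cst]
      have e2 : th (3 + 2) = 23 / 200 := by norm_num [th]
      rw [e1, e2] at h1 h2
      have := Real.rpow_pos_of_pos hNpos (-(23 / 200))
      constructor <;> linarith
    · obtain ⟨h1, h2⟩ := (sides_j 4 (by norm_num) (by norm_num)).1 N hN
      have e1 : cst (4 + 2) = 3 := by norm_num [cst]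
      have e2 : th (4 + 2) = 1 / 24 := by norm_num [th]
      rw [e1, e2] at h1 h2
      have := Real.rpow_pos_of_pos hNpos (-(1 / 24))
      constructor <;> linarith

end Pool.Agent.Results.MP_4960b8_pr.WedgeExponents
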